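import Pool.Agent.Helper17.SL.GoalsB

/-! # Project SL, packet SC: the logarithms of algebraic units form a rational subspace -/

namespace Pool.Agent.Helper17.SL.PkSC

open Pool.Agent.Helper17.SL Pool.Agent.Helper51.SigLeo Pool.Agent.Helper51.SixExp

universe u v

theorem thm : S_SC.{u, v} := by
  intro p _ k _ _ _ _ Ω _ _ ι Λ
  refine ⟨?_, ?_, ?_⟩
  · refine ⟨1, one_pos, 1, IsUnitAlg.one, ?_⟩
    rw [map_one, log_one, mul_zero]
  · rintro x y ⟨N, hN, a, ha, hx⟩ ⟨M, hM, b, hb, hy⟩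
    refine ⟨N * M, Nat.mul_pos hN hM, a ^ M * b ^ N, (ha.pow M).mul (hb.pow N), ?_⟩
    rw [map_mul, map_pow, map_pow, Λ.map_mul, log_pow, log_pow, ← hx, ← hy]
    push_cast
    ring
  · rintro q x ⟨N, hN, a, ha, hx⟩
    refine ⟨N * q.den, Nat.mul_pos hN q.den_pos, a ^ q.num, ha.zpow _, ?_⟩
    rw [map_zpow, log_zpow, ← hx, Rat.smul_def]
    have h : ((q.den : ℕ) : k) ≠ 0 := by exact_mod_cast q.den_nz
    have e : (q : k) = (q.num : k) / (q.den : k) := Rat.cast_def q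
    rw [e]
    push_cast
    field_simp

end Pool.Agent.Helper17.SL.PkSC
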