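import Pool.Agent.Helper17.SL.GoalsZE

/-! # Project SL, packet ZG: independence modulo an invariant prime -/

namespace Pool.Agent.Helper17.SL.PkZG

open MvPolynomial Module Pool.Agent.Helper17.SL

universe u x y

theorem thm (hF : S_ZF.{u, 0, x, y}) : S_ZG.{u, x, y} := by
  classical
  intro K _ _ I J _ _ g D P G s hP hY hG hX hR f hf hfP
  have := hP
  let Is := {i : I // Sum.inl i ∈ s}
  let Js := {j : J // Sum.inr j ∈ s}
  let e : Is ⊕ Js → I ⊕ J := Sum.map Subtype.val Subtype.val
  let R := MvPolynomial (I ⊕ J) K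
  let L := FractionRing (R ⧸ P)
  let q : R →ₐ[K] L := (IsScalarTower.toAlgHom K (R ⧸ P) L).comp (Ideal.Quotient.mkₐ K P)
  have hq0 : ∀ h : R, h ∈ P → q h = 0 := by
    intro h hh
    change algebraMap (R ⧸ P) L (Ideal.Quotient.mk P h) = 0
    rw [Ideal.Quotient.eq_zero_iff_mem.2 hh, map_zero]
  have hq1 : ∀ h : R, h ∉ P → q h ≠ 0 := by
    intro h hh h0
    apply hh
    change algebraMap (R ⧸ P) L (Ideal.Quotient.mk P h) = 0 at h0
    rw [← Ideal.Quotient.eq_zero_iff_mem]
    exact (IsFractionRing.injective (R ⧸ P) L) (by rw [h0, map_zero])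
  -- the polynomial in the variables of s
  obtain ⟨f', hf'⟩ : ∃ f' : MvPolynomial (Is ⊕ Js) K, rename e f' = f := by
    have hr : (s : Set (I ⊕ J)) = Set.range e := by
      ext k
      constructor
      · intro hk
        rcases k with i | j
        · exact ⟨Sum.inl ⟨i, hk⟩, rfl⟩
        · exact ⟨Sum.inr ⟨j, hk⟩, rfl⟩
      · rintro ⟨k, rfl⟩
        rcases k with i | j
        · exact i.2
        · exact j.2
    have h1 : f ∈ supported K (Set.range e) := by rw [← hr]; exact hf
    rw [supported_eq_adjoin_X] at h1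
    have h2 : (rename e : MvPolynomial (Is ⊕ Js) K →ₐ[K] R).range =
        Algebra.adjoin K (X '' Set.range e) := by
      rw [← Algebra.map_top, ← MvPolynomial.adjoin_range_X, AlgHom.map_adjoin]
      congr 1
      ext h
      simp only [Set.mem_image, Set.mem_range, exists_exists_eq_and, rename_X]
    rw [← h2] at h1
    exact h1
  let xi : Is ⊕ Js → L := fun k ↦ q (X (e k))
  let φ : MvPolynomial (Is ⊕ Js) K →ₐ[K] MvPolynomial (Is ⊕ Js) L :=
    aeval (Sum.elim (fun i ↦ X (Sum.inl i) + C (xi (Sum.inl i)))
      (fun j ↦ C (xi (Sum.inr j)) * X (Sum.inr j)))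
  let ψ : MvPolynomial (Is ⊕ Js) L →ₐ[L] MvPolynomial (Is ⊕ Js) L :=
    aeval (Sum.elim (fun i ↦ X (Sum.inl i) - C (xi (Sum.inl i)))
      (fun j ↦ C (xi (Sum.inr j))⁻¹ * X (Sum.inr j)))
  have hψ : ∀ h : MvPolynomial (Is ⊕ Js) K, ψ (φ h) = map (algebraMap K L) h := by
    intro h
    have : ((ψ.restrictScalars K).comp φ) = (MvPolynomial.mapAlgHom (Algebra.ofId K L)) := by
      apply MvPolynomial.algHom_ext
      intro k
      rcases k with i | j
      · simp [φ, ψ]
      · have h0 : xi (Sum.inr j) ≠ 0 := hq1 _ (hY j.1)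
        simp only [AlgHom.coe_comp, Function.comp_apply, φ, ψ, aeval_X, Sum.elim_inr,
          AlgHom.coe_restrictScalars', map_mul, aeval_C, MvPolynomial.mapAlgHom_apply, map_X]
        rw [MvPolynomial.algebraMap_eq, ← mul_assoc, ← C_mul, mul_inv_cancel₀ h0, C_1, one_mul]
    have h2 := DFunLike.congr_fun this h
    exact h2
  have hev : ∀ a ∈ G, eval (fun k ↦ algebraMap K L (D.pt a (e k))) (φ f') = 0 := by
    intro a ha
    have : (((aeval (fun k ↦ algebraMap K L (D.pt a (e k))) :
        MvPolynomial (Is ⊕ Js) L →ₐ[L] L).restrictScalars K).comp φ) =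
        (q.comp (D.tau a)).comp (rename e) := by
      apply MvPolynomial.algHom_ext
      intro k
      rcases k with i | j
      · simp only [AlgHom.coe_comp, Function.comp_apply, φ, aeval_X, Sum.elim_inl,
          AlgHom.coe_restrictScalars', map_add, aeval_C, rename_X, Dat.tau, xi]
        simp only [e, Sum.map_inl, Sum.elim_inl, map_add, Dat.pt]
        rw [add_comm]
        congr 1
      · simp only [AlgHom.coe_comp, Function.comp_apply, φ, aeval_X, Sum.elim_inr,
          AlgHom.coe_restrictScalars', map_mul, aeval_C, rename_X, Dat.tau, xi]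
        simp only [e, Sum.map_inr, Sum.elim_inr, map_mul, Dat.pt]
        rw [mul_comm]
        congr 1
    have h2 := DFunLike.congr_fun this f'
    have h3 : q (D.tau a (rename e f')) = 0 := by
      rw [hf']
      exact hq0 _ (hG a ha f hfP)
    have h4 : aeval (fun k ↦ algebraMap K L (D.pt a (e k))) (φ f') = (0 : L) := h2.trans h3
    rwa [MvPolynomial.aeval_eq_eval] at h4
  have hLI := hF K G Is Js (fun i a ↦ D.X a i.1) (fun j a ↦ D.Y a j.1)
    (fun i a b ↦ D.X_add a b i.1) (fun j a b ↦ D.Y_add a b j.1) (fun j a ↦ D.Y_ne a j.1)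
    (by
      rw [Fintype.linearIndependent_iff]
      intro c hc i
      have h1 := hX (fun i ↦ if h : Sum.inl i ∈ s then c ⟨i, h⟩ else 0) (fun i hi ↦ dif_neg hi)
        (fun a ha ↦ by
          have h2 := congrFun hc ⟨a, ha⟩
          simp only [Finset.sum_apply, Pi.smul_apply, smul_eq_mul, Pi.zero_apply] at h2
          refine Eq.trans ?_ h2
          symm
          apply Fintype.sum_of_injective (Subtype.val : Is → I) Subtype.val_injective
          · intro i hi
            rw [dif_neg, zero_mul]
            intro h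
            exact hi ⟨⟨i, h⟩, rfl⟩
          · intro i
            rw [dif_pos i.2])
      have h3 := congrFun h1 i.1
      simpa [i.2] using h3)
    (by
      intro c hc
      have h1 := hR (fun j ↦ if h : Sum.inr j ∈ s then c ⟨j, h⟩ else 0) (fun j hj ↦ dif_neg hj)
        (fun a ha ↦ by
          have h2 := hc ⟨a, ha⟩
          refine Eq.trans ?_ h2
          symm
          apply Fintype.prod_of_injective (Subtype.val : Js → J) Subtype.val_injective
          · intro j hj
            dsimp only
            rw [dif_neg, zpow_zero]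
            intro h
            exact hj ⟨⟨j, h⟩, rfl⟩
          · intro j
            dsimp only
            rw [dif_pos j.2])
      funext j
      have h3 := congrFun h1 j.1
      simpa [j.2] using h3)
  have hp : φ f' = 0 := by
    by_contra hne
    obtain ⟨d, hd⟩ := MvPolynomial.support_nonempty.2 hne
    have hd' := MvPolynomial.mem_support_iff.1 hd
    apply hd'
    rw [← Module.forall_dual_apply_eq_zero_iff K]
    intro l
    have hsum : ∑ d ∈ (φ f').support, l (coeff d (φ f')) •
        (fun a : G ↦ (∏ i : Is, D.X a i.1 ^ d (Sum.inl i)) *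
          ∏ j : Js, D.Y a j.1 ^ d (Sum.inr j)) = 0 := by
      funext a
      have h1 := hev a.1 a.2
      rw [MvPolynomial.eval_eq'] at h1
      have h2 := congrArg l h1
      rw [map_sum, map_zero] at h2
      rw [Finset.sum_apply, Pi.zero_apply, ← h2]
      apply Finset.sum_congr rfl
      intro d _
      rw [Pi.smul_apply, smul_eq_mul, Fintype.prod_sum_type]
      have h3 : (∏ i : Is, algebraMap K L (D.pt a (e (Sum.inl i))) ^ d (Sum.inl i)) *
          (∏ j : Js, algebraMap K L (D.pt a (e (Sum.inr j))) ^ d (Sum.inr j)) =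
          algebraMap K L ((∏ i : Is, D.X a i.1 ^ d (Sum.inl i)) *
            ∏ j : Js, D.Y a j.1 ^ d (Sum.inr j)) := by
        rw [map_mul, map_prod, map_prod]
        simp only [map_pow]
        rfl
      rw [h3, mul_comm (coeff d (φ f')), ← Algebra.smul_def, map_smul, smul_eq_mul, mul_comm]
    exact linearIndependent_iff'.1 hLI _ _ hsum d hd
  have hm : map (algebraMap K L) f' = 0 := by
    rw [← hψ, hp, map_zero]
  have hf0 : f' = 0 := by
    apply MvPolynomial.map_injective (algebraMap K L) (algebraMap K L).injective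
    rw [hm, map_zero]
  rw [← hf', hf0, map_zero]

end Pool.Agent.Helper17.SL.PkZG
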